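import Pool.Agent.Helper18.SG.Goals2

/-!
# Packet SG2-T1 (MP_d3128a_ag): the shape of the stages

For `e = n - 3 b ≥ 0`, `p = a 0 - b`, `q = a 1 - b`, `S = ∑_{i < 9} (a i - b)`:
`rr b = 0` if `p > e`, `rr b = e + 1 - q` if `p = e`, and `rr b = min (3 e - S) (4 e - 2 (p + q))` if
`p < e`. The last expression is concave in `b`.
-/

set_option autoImplicit false

namespace Pool.Agent.Helper79.SG

open Module
open Pool.Agent.Helper18.SG
open Helper18.Cusp

variable {n : ℕ} {a : ℕ → ℕ}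

/-- the sum of the multiplicities at the stage `b` -/
def SS (a : ℕ → ℕ) (b : ℕ) : ℤ := ∑ i ∈ Finset.range 9, ((a i - b : ℕ) : ℤ)

theorem SS_convex (a : ℕ → ℕ) (b : ℕ) : 2 * SS a (b + 1) ≤ SS a b + SS a (b + 2) := by
  unfold SS
  rw [Finset.mul_sum, ← Finset.sum_add_distrib]
  refine Finset.sum_le_sum fun i _ => ?_
  omega

/-- beyond `a 2` only two points are left -/
theorem SS_two (h : Red n a) {b : ℕ} (hb : a 2 ≤ b) :
    SS a b = ((a 0 - b : ℕ) : ℤ) + ((a 1 - b : ℕ) : ℤ) := by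
  obtain ⟨m1, m2, m3, m4, m5, m6, m7, m8⟩ := h.chain
  unfold SS
  rw [sum9z]
  omega

theorem SS_ge (a : ℕ → ℕ) (b : ℕ) :
    ((a 0 - b : ℕ) : ℤ) + ((a 1 - b : ℕ) : ℤ) + ((a 2 - b : ℕ) : ℤ) ≤ SS a b := by
  unfold SS
  rw [sum9z]
  omega

theorem tri (c : ℕ) : c * (c + 1) = (c - 1) * (c - 1 + 1) + 2 * c := by
  rcases c with _ | c
  · rfl
  · rw [Nat.add_sub_cancel]
    ring

/-- dimension of the next stage -/
theorem next_zero (a : ℕ → ℕ) {b e : ℕ} (hn : e + 3 * b = n) (he : e < 3) :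
    finrank ℂ (YB n a (b + 1)) = 0 := by
  rw [YB_eq_bot (by push_cast; omega), finrank_bot]

theorem val_zero (hT : GoalT1a) (h : Red n a) {b e : ℕ} (hb : a 2 ≤ b) (hn : e + 3 * b = n)
    (hp : e < a 0 - b) : rr n a b = 0 := by
  have h1 := (hT n a b e h hb hn).2 (by omega)
  have h2 := rr_add n a b
  rw [show e + 1 - (a 0 - b) = 0 by omega, zero_mul] at h1
  omega

theorem val_eq (hT : GoalT1a) (h : Red n a) {b e : ℕ} (hb : a 2 ≤ b) (hn : e + 3 * b = n)
    (hp : a 0 - b = e) : rr n a b = e + 1 - (a 1 - b) := by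
  obtain ⟨m1, -⟩ := h.chain
  have hq : a 1 - b ≤ e := by omega
  have h1 := hT n a b e h hb hn
  have h2 := rr_add n a b
  have h3 : finrank ℂ (YB n a b) = e + 1 - (a 1 - b) := by
    rcases Nat.eq_zero_or_pos (a 1 - b) with h0 | h0
    · have h4 := h1.1 (by omega)
      rw [h0, hp] at h4
      rw [h0]
      have h5 : (e + 1) * (e + 2) = e * (e + 1) + 2 * (e + 1) := by ring
      omega
    · have h4 := h1.2 (by omega)
      rw [h4, hp, show e + 1 - e = 1 by omega, one_mul]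
  have h6 : finrank ℂ (YB n a (b + 1)) = 0 := by
    rcases Nat.lt_or_ge e 3 with he | he
    · exact next_zero a hn he
    · have h7 := (hT n a (b + 1) (e - 3) h (by omega) (by omega)).2 (by omega)
      rw [h7, show e - 3 + 1 - (a 0 - (b + 1)) = 0 by omega, zero_mul]
  omega

theorem val_one (hT : GoalT1a) (h : Red n a) {b e : ℕ} (hb : a 2 ≤ b) (hn : e + 3 * b = n)
    (hp : a 0 - b < e) (hs : (a 0 - b) + (a 1 - b) ≤ e) :
    (rr n a b : ℤ) = 3 * e - ((a 0 - b : ℕ) : ℤ) - ((a 1 - b : ℕ) : ℤ) := by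
  obtain ⟨m1, -⟩ := h.chain
  have h1 := (hT n a b e h hb hn).1 (by omega)
  have h2 := rr_add n a b
  obtain ⟨p, hpp⟩ : ∃ p, a 0 - b = p := ⟨_, rfl⟩
  obtain ⟨q, hqq⟩ : ∃ q, a 1 - b = q := ⟨_, rfl⟩
  have hqp : q ≤ p := by omega
  rcases Nat.lt_or_ge e 3 with he | he
  · have h6 := next_zero a hn he
    rw [hpp, hqq] at h1 hs ⊢
    rw [hpp] at hp
    have hp2 : p = 0 ∨ p = 1 := by omega
    have hq2 : q = 0 ∨ q = 1 := by omega
    have he2 : e = 1 ∨ e = 2 := by omega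
    rcases hp2 with rfl | rfl <;> rcases hq2 with rfl | rfl <;> rcases he2 with rfl | rfl <;>
      omega
  · obtain ⟨f, rfl⟩ : ∃ f, e = f + 3 := ⟨e - 3, by omega⟩
    have h7 := (hT n a (b + 1) f h (by omega) (by omega)).1 (by omega)
    rw [show a 0 - (b + 1) = p - 1 by omega, show a 1 - (b + 1) = q - 1 by omega] at h7
    rw [hpp, hqq, tri p, tri q] at h1
    rw [hpp, hqq]
    have h5 : (f + 3 + 1) * (f + 3 + 2) = (f + 1) * (f + 2) + 6 * (f + 3) := by ring
    push_cast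
    omega

theorem val_two (hT : GoalT1a) (h : Red n a) {b e : ℕ} (hb : a 2 ≤ b) (hn : e + 3 * b = n)
    (hp : a 0 - b < e) (hs : e + 1 ≤ (a 0 - b) + (a 1 - b)) :
    (rr n a b : ℤ) = 4 * e - 2 * ((a 0 - b : ℕ) : ℤ) - 2 * ((a 1 - b : ℕ) : ℤ) := by
  obtain ⟨m1, -⟩ := h.chain
  have h1 := (hT n a b e h hb hn).2 hs
  have h2 := rr_add n a b
  obtain ⟨p, hpp⟩ : ∃ p, a 0 - b = p := ⟨_, rfl⟩
  obtain ⟨q, hqq⟩ : ∃ q, a 1 - b = q := ⟨_, rfl⟩
  have hqp : q ≤ p := by omega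
  have h7 := (hT n a (b + 1) (e - 3) h (by omega) (by omega)).2 (by omega)
  rw [show a 0 - (b + 1) = p - 1 by omega, show a 1 - (b + 1) = q - 1 by omega] at h7
  rw [hpp, hqq] at h1 hs ⊢
  rw [hpp] at hp
  obtain ⟨x, hx⟩ : ∃ x, e + 1 - p = x + 2 := ⟨e + 1 - p - 2, by omega⟩
  obtain ⟨y, hy⟩ : ∃ y, e + 1 - q = y + 2 := ⟨e + 1 - q - 2, by omega⟩
  rw [hx, hy] at h1
  rw [show e - 3 + 1 - (p - 1) = x by omega, show e - 3 + 1 - (q - 1) = y by omega] at h7
  have h5 : (x + 2) * (y + 2) = x * y + (2 * x + 2 * y + 4) := by ring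
  omega

/-- The value of `rr` in the main range. -/
theorem val_main (hT : GoalT1a) (h : Red n a) {b e : ℕ} (hn : e + 3 * b = n)
    (hp : a 0 - b < e) :
    (rr n a b : ℤ) ≤ 3 * e - SS a b ∧
    (rr n a b : ℤ) ≤ 4 * e - 2 * ((a 0 - b : ℕ) : ℤ) - 2 * ((a 1 - b : ℕ) : ℤ) ∧
    ((rr n a b : ℤ) = 3 * e - SS a b ∨
      (rr n a b : ℤ) = 4 * e - 2 * ((a 0 - b : ℕ) : ℤ) - 2 * ((a 1 - b : ℕ) : ℤ)) := by
  obtain ⟨m1, m2, -⟩ := h.chain
  rcases Nat.lt_or_ge b (a 2) with hb | hb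
  · have h1 : (rr n a b : ℤ) = 3 * ((n : ℤ) - 3 * b) - SS a b :=
      rr_lev h (lev_red h.ha h.hd) hb
    have h2 := SS_ge a b
    have h3 := h.hd
    omega
  · have h4 := SS_two h hb
    rcases Nat.lt_or_ge e ((a 0 - b) + (a 1 - b)) with hs | hs
    · have h5 := val_two hT h hb hn hp hs
      omega
    · have h5 := val_one hT h hb hn hp hs
      omega

/-- **T1.** -/
theorem goalT1 (hT : GoalT1a) : GoalT1 := by
  intro n a h
  obtain ⟨m1, m2, -⟩ := h.chain
  have hpos : ∀ b, 0 < rr n a b ↔ (a 0 - b) + 3 * b ≤ n := by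
    intro b
    constructor
    · intro hb
      by_contra hcon
      rcases Nat.lt_or_ge n (3 * b) with hn | hn
      · have := rr_zero (a := a) hn
        omega
      · have hd := h.hd
        have := val_zero hT h (b := b) (e := n - 3 * b) (by omega) (by omega) (by omega)
        omega
    · intro hb
      exact rr_pos h hb
  -- concavity of the two expressions
  have hcc : ∀ b e, e + 3 * (b + 2) = n → a 0 - (b + 2) ≤ e → ∀ c : ℤ,
      (rr n a (b + 2) : ℤ) ≤ 3 * e - SS a (b + 2) + c →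
      (rr n a (b + 2) : ℤ) ≤ 4 * e - 2 * ((a 0 - (b + 2) : ℕ) : ℤ) -
        2 * ((a 1 - (b + 2) : ℕ) : ℤ) + c →
      (rr n a b : ℤ) + rr n a (b + 2) ≤ 2 * rr n a (b + 1) + c := by
    intro b e hn hp c hc1 hc2
    obtain ⟨u1, u2, u3⟩ := val_main hT h (b := b) (e := e + 6) (by omega) (by omega)
    obtain ⟨v1, v2, v3⟩ := val_main hT h (b := b + 1) (e := e + 3) (by omega) (by omega)
    have w := SS_convex a b
    push_cast at u1 u2 u3 v1 v2 v3
    rcases v3 with v3 | v3 <;> omega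
  refine ⟨hpos, fun b hb => ?_, fun b hb => ?_⟩
  · have h1 := (hpos (b + 3)).1 hb
    obtain ⟨v1, v2, -⟩ := val_main hT h (b := b + 2) (e := n - 3 * (b + 2)) (by omega) (by omega)
    have := hcc b (n - 3 * (b + 2)) (by omega) (by omega) 0 (by omega) (by omega)
    omega
  · have h1 := (hpos (b + 2)).1 hb
    rcases Nat.lt_or_ge (a 0 - (b + 2)) (n - 3 * (b + 2)) with hlt | hge
    · obtain ⟨v1, v2, -⟩ := val_main hT h (b := b + 2) (e := n - 3 * (b + 2)) (by omega) hlt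
      have := hcc b (n - 3 * (b + 2)) (by omega) (by omega) 0 (by omega) (by omega)
      omega
    · have hd := h.hd
      have h2 : a 2 ≤ b + 2 := by omega
      have h3 := val_eq hT h (b := b + 2) (e := n - 3 * (b + 2)) h2 (by omega) (by omega)
      have h4 := SS_two h h2
      have := hcc b (n - 3 * (b + 2)) (by omega) (by omega) 1 (by omega) (by omega)
      omega

end Pool.Agent.Helper79.SG
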